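import Mathlib

set_option autoImplicit false

namespace Pool.Agent.H.MP_0ac5c2_an

open Matrix Polynomial

abbrev Mat (n : ℕ) := Matrix (Fin n) (Fin n) ℂ

theorem normal_form {n : ℕ} (M T : Mat n) (k u v : Fin n → ℂ)
    (h1 : 1 - T * Tᴴ = vecMulVec k (star k))
    (h2 : ∀ μ : ℂ, ∀ x : Fin n → ℂ, x ≠ 0 → T *ᵥ x = μ • x → ‖μ‖ < 1)
    (h3 : M - T * M * Tᴴ = vecMulVec u (star k) + vecMulVec k (star v)) :
    ∃ (U : unitary (Mat n)) (h : Fin n → ℝ) (p q κ : Fin n → ℂ), Function.Injective h ∧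
      ∀ i j, ((h i : ℂ) - h j) * (Unitary.conjStarAlgAut ℂ _ U M) i j =
        p i * star (κ j) + κ i * star (q j) := by
  have hdet : IsUnit (1 - T).det := by
    rw [isUnit_iff_ne_zero]
    intro h0
    obtain ⟨x, hx, hx0⟩ := Matrix.exists_mulVec_eq_zero_iff.2 h0
    have := h2 1 x hx (by
      rw [sub_mulVec, one_mulVec, sub_eq_zero] at hx0
      rw [one_smul, ← hx0])
    simp at this
  set N := (1 - T)⁻¹ with hN
  have hN1 : N * (1 - T) = 1 := Matrix.nonsing_inv_mul _ hdet
  have hN1' : (1 - T) * N = 1 := Matrix.mul_nonsing_inv _ hdet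
  have hN2 : (1 - Tᴴ) * Nᴴ = 1 := by
    have := congrArg conjTranspose hN1
    simpa using this
  set G := N * (1 + T) with hG
  set κ := N *ᵥ k with hκ
  have key : ∀ X : Mat n, G * X + X * Gᴴ = (2 : ℂ) • (N * (X - T * X * Tᴴ) * Nᴴ) := by
    intro X
    have e1 : G * X = N * ((1 + T) * X * (1 - Tᴴ)) * Nᴴ := by
      simp only [hG, Matrix.mul_assoc, hN2, Matrix.mul_one]
    have e2 : X * Gᴴ = N * ((1 - T) * X * (1 + Tᴴ)) * Nᴴ := by
      simp only [hG, ← Matrix.mul_assoc, hN1, Matrix.one_mul, conjTranspose_mul, conjTranspose_add,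
        conjTranspose_one]
    rw [e1, e2, two_smul]
    noncomm_ring
  have conj : ∀ (Y : Mat n) (a c : Fin n → ℂ),
      Y * vecMulVec a (star c) * Yᴴ = vecMulVec (Y *ᵥ a) (star (Y *ᵥ c)) := by
    intro Y a c
    rw [mul_vecMulVec, vecMulVec_mul, star_mulVec]
  set K := vecMulVec κ (star κ) with hK
  have k1 : G + Gᴴ = (2 : ℂ) • K := by
    have := key 1
    rwa [Matrix.mul_one, Matrix.one_mul, Matrix.mul_one, h1, conj] at this
  have k2 : G * M + M * Gᴴ =
      (2 : ℂ) • (vecMulVec (N *ᵥ u) (star κ) + vecMulVec κ (star (N *ᵥ v))) := by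
    rw [key, h3, Matrix.mul_add, Matrix.add_mul, conj, conj]
  have hKh : Kᴴ = K := by
    rw [hK, conjTranspose_vecMulVec, star_star]
  set H : Mat n := (-Complex.I) • (G - K) with hH
  have hGs : Gᴴ = (2 : ℂ) • K - G := by rw [← k1]; abel
  have hHh : H.IsHermitian := by
    unfold Matrix.IsHermitian
    rw [hH, conjTranspose_smul, conjTranspose_sub, hKh, hGs]
    ext i j
    simp
    ring
  have k3 : H * M - M * H =
      vecMulVec ((-Complex.I) • ((2 : ℂ) • (N *ᵥ u) - M *ᵥ κ)) (star κ) +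
        vecMulVec κ (star (Complex.I • ((2 : ℂ) • (N *ᵥ v) - Mᴴ *ᵥ κ))) := by
    have e1 : M * K = vecMulVec (M *ᵥ κ) (star κ) := by rw [hK, mul_vecMulVec]
    have e2 : K * M = vecMulVec κ (star (Mᴴ *ᵥ κ)) := by
      rw [hK, vecMulVec_mul, star_mulVec Mᴴ, conjTranspose_conjTranspose]
    have e3 : H * M - M * H = (-Complex.I) • ((G * M + M * Gᴴ) - M * K - K * M) := by
      rw [hGs, hH]
      simp only [Matrix.smul_mul, Matrix.mul_smul, Matrix.sub_mul, Matrix.mul_sub]
      module
    rw [e3, k2, e1, e2]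
    ext i j
    simp [vecMulVec_apply]
    ring
  set V := hHh.eigenvectorUnitary with hV
  have hD := hHh.conjStarAlgAut_star_eigenvectorUnitary
  set φ := Unitary.conjStarAlgAut ℂ (Mat n) (star V) with hφ
  have hφ' : ∀ a c : Fin n → ℂ, φ (vecMulVec a (star c)) =
      vecMulVec (((star V : unitary (Mat n)) : Mat n) *ᵥ a)
        (star (((star V : unitary (Mat n)) : Mat n) *ᵥ c)) := by
    intro a c
    rw [hφ, Unitary.conjStarAlgAut_apply, ← conj]
    rfl
  refine ⟨star V, hHh.eigenvalues,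
    ((star V : unitary (Mat n)) : Mat n) *ᵥ ((-Complex.I) • ((2 : ℂ) • (N *ᵥ u) - M *ᵥ κ)),
    ((star V : unitary (Mat n)) : Mat n) *ᵥ (Complex.I • ((2 : ℂ) • (N *ᵥ v) - Mᴴ *ᵥ κ)),
    ((star V : unitary (Mat n)) : Mat n) *ᵥ κ, ?_, ?_⟩
  · intro i j hij
    by_contra hne
    obtain ⟨x, hx0, hx1, hx2⟩ : ∃ x : Fin n → ℂ, x ≠ 0 ∧ H *ᵥ x = (hHh.eigenvalues i : ℂ) • x ∧
        star κ ⬝ᵥ x = 0 := by
      have a1 := hHh.mulVec_eigenvectorBasis i
      have a2 := hHh.mulVec_eigenvectorBasis j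
      have hli := hHh.eigenvectorBasis.orthonormal
      set y : Fin n → ℂ := ⇑(hHh.eigenvectorBasis i) with hy
      set z : Fin n → ℂ := ⇑(hHh.eigenvectorBasis j) with hz
      by_cases hc : star κ ⬝ᵥ y = 0
      · refine ⟨y, ?_, by rw [a1]; rfl, hc⟩
        intro h0
        exact hli.ne_zero i (by ext t; exact congrFun h0 t)
      · refine ⟨(star κ ⬝ᵥ z) • y - (star κ ⬝ᵥ y) • z, ?_, ?_, ?_⟩
        · intro h0
          have h4 : (star κ ⬝ᵥ z) • hHh.eigenvectorBasis i - (star κ ⬝ᵥ y) • hHh.eigenvectorBasis j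
              = 0 := by
            ext t
            exact congrFun h0 t
          have h5 := congrArg (fun w => inner ℂ (hHh.eigenvectorBasis j) w) h4
          simp only [inner_sub_right, inner_smul_right, hli.inner_eq_zero (Ne.symm hne),
            inner_zero_right, inner_self_eq_norm_sq_to_K, hli.1 j] at h5
          apply hc
          simpa using h5
        · rw [mulVec_sub, mulVec_smul, mulVec_smul, a1, a2, ← hij]
          ext t
          simp
          ring
        · simp [dotProduct_sub, dotProduct_smul, mul_comm]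
    set μ : ℂ := Complex.I * hHh.eigenvalues i with hμ
    have b1 : G *ᵥ x = μ • x := by
      have : G = K + Complex.I • H := by
        rw [hH, smul_smul]
        simp
      rw [this, add_mulVec, smul_mulVec, hx1, hK, vecMulVec_mulVec, hx2, smul_smul]
      simp [hμ]
    have b2 : (1 + T) *ᵥ x = μ • ((1 - T) *ᵥ x) := by
      rw [← mulVec_smul, ← b1, mulVec_mulVec, hG, ← Matrix.mul_assoc, hN1', Matrix.one_mul]
    have b3 : μ + 1 ≠ 0 := by
      intro h0
      have := congrArg Complex.re h0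
      simp [hμ] at this
    have b4 : T *ᵥ x = ((μ - 1) / (μ + 1)) • x := by
      rw [add_mulVec, sub_mulVec, one_mulVec] at b2
      ext t
      have := congrFun b2 t
      simp only [Pi.add_apply, Pi.smul_apply, Pi.sub_apply, smul_eq_mul] at this ⊢
      field_simp
      linear_combination this
    have b5 := h2 _ x hx0 b4
    have b6 : ‖μ - 1‖ = ‖μ + 1‖ := by
      rw [Complex.norm_eq_sqrt_sq_add_sq, Complex.norm_eq_sqrt_sq_add_sq]
      simp [hμ]
    rw [norm_div, b6, div_self (norm_ne_zero_iff.2 b3)] at b5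
    exact lt_irrefl _ b5
  · intro i j
    have := congrArg φ k3
    rw [map_sub, map_mul, map_mul, map_add, hφ', hφ', hD] at this
    have := congrFun (congrFun this i) j
    generalize φ M = M' at this ⊢
    simp only [Matrix.sub_apply, diagonal_mul, mul_diagonal, Matrix.add_apply, vecMulVec_apply,
      Function.comp_apply, Pi.star_apply] at this
    rw [← this]
    simp only [Complex.coe_algebraMap]
    ring

end Pool.Agent.H.MP_0ac5c2_an
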