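import Pool.Agent.H.MP_0ac5c2_an.A

set_option autoImplicit false

namespace Pool.Agent.H.MP_0ac5c2_an

open Matrix Polynomial Set

noncomputable def ell {n : ℕ} (a : Fin n) : ℂ[X] :=
  Lagrange.basis Finset.univ (fun c : Fin n => ((c : ℕ) : ℂ)) a

noncomputable def rp {n : ℕ} (M : Mat n) : Mat n := (1 / 2 : ℂ) • (M + Mᴴ)
noncomputable def ip {n : ℕ} (M : Mat n) : Mat n := (-Complex.I / 2 : ℂ) • (M - Mᴴ)

noncomputable def inv {n : ℕ} (M : Mat n) (a b : Fin n) : ℂ :=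
  trace (aeval (rp M) (ell a) * ip M * aeval (rp M) (ell b) * ip M)

theorem inv_conj {n : ℕ} (U : unitary (Mat n)) (M : Mat n) (a b : Fin n) :
    inv (Unitary.conjStarAlgAut ℂ _ U M) a b = inv M a b := by
  set φ := Unitary.conjStarAlgAut ℂ (Mat n) U with hφ
  have h0 : (φ M)ᴴ = φ Mᴴ := (map_star φ M).symm
  have h1 : rp (φ M) = φ (rp M) := by simp only [rp, h0, map_smul, map_add]
  have h2 : ip (φ M) = φ (ip M) := by simp only [ip, h0, map_smul, map_sub]
  unfold inv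
  rw [h1, h2, aeval_algHom_apply φ, aeval_algHom_apply φ, ← map_mul, ← map_mul, ← map_mul, hφ,
    Unitary.conjStarAlgAut_apply, trace_mul_comm, ← Matrix.mul_assoc]
  simp

theorem ell_diag {n : ℕ} (a : Fin n) :
    aeval (diagonal fun c : Fin n => ((c : ℕ) : ℂ)) (ell a) = diagonal (Pi.single a 1) := by
  have := aeval_algHom_apply (diagonalAlgHom ℂ (n := Fin n) (α := ℂ)) (fun c : Fin n => ((c : ℕ) : ℂ))
    (ell a)
  simp only [diagonalAlgHom_apply] at this
  rw [this]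
  congr 1
  funext c
  rw [aeval_fn_apply, coe_aeval_eq_eval]
  have hinj : Set.InjOn (fun c : Fin n => ((c : ℕ) : ℂ)) (Finset.univ : Finset (Fin n)) := by
    intro x _ y _ h
    exact Fin.ext (Nat.cast_injective (R := ℂ) h)
  by_cases h : c = a
  · subst h
    simpa [ell] using Lagrange.eval_basis_self hinj (Finset.mem_univ c)
  · rw [Pi.single_eq_of_ne h]
    exact Lagrange.eval_basis_of_ne (v := fun c : Fin n => ((c : ℕ) : ℂ)) (Ne.symm h)
      (Finset.mem_univ c)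

noncomputable def MB {n : ℕ} (B : Fin n → Fin n → ℝ) : Mat n :=
  diagonal (fun c : Fin n => ((c : ℕ) : ℂ)) + Complex.I • of fun i j => (B i j : ℂ)

theorem inv_MB {n : ℕ} (B : Fin n → Fin n → ℝ) (hB : ∀ i j, B i j = B j i) (a b : Fin n) :
    inv (MB B) a b = (B a b : ℂ) ^ 2 := by
  have h1 : rp (MB B) = diagonal fun c : Fin n => ((c : ℕ) : ℂ) := by
    ext i j
    by_cases h : i = j
    · subst h
      simp [rp, MB]
      ring
    · simp [rp, MB, h, Ne.symm h, hB j i]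
  have h2 : ip (MB B) = of fun i j => (B i j : ℂ) := by
    ext i j
    by_cases h : i = j
    · subst h
      simp [ip, MB]
      linear_combination (-(B i i : ℂ)) * Complex.I_mul_I
    · simp [ip, MB, h, Ne.symm h, hB j i]
      linear_combination (-(B i j : ℂ)) * Complex.I_mul_I
  unfold inv
  rw [h1, h2, ell_diag, ell_diag]
  simp only [trace, diag_apply, mul_apply, diagonal_apply, of_apply, Pi.single_apply]
  simp [hB b a, sq]

section smooth

variable {E : Type} [NormedAddCommGroup E] [NormedSpace ℝ E] {n : ℕ}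

def CD (F : E → Mat n) (x : E) : Prop := ∀ i j, ContDiffAt ℝ 1 (fun t => F t i j) x

theorem CD.mul {F G : E → Mat n} {x : E} (hF : CD F x) (hG : CD G x) :
    CD (fun t => F t * G t) x := by
  intro i j
  simp only [mul_apply]
  exact ContDiffAt.sum fun l _ => (hF i l).mul (hG l j)

theorem CD.aeval {F : E → Mat n} {x : E} (hF : CD F x) (p : ℂ[X]) :
    CD (fun t => aeval (F t) p) x := by
  induction p using Polynomial.induction_on with
  | C a => intro i j; simp only [aeval_C]; exact contDiffAt_const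
  | add p q hp hq => intro i j; simp only [map_add, Matrix.add_apply]; exact (hp i j).add (hq i j)
  | monomial m a h =>
    have := h.mul hF
    simpa only [pow_succ, ← mul_assoc, map_mul, aeval_X] using this

theorem cd_star {f : E → ℂ} {x : E} (h : ContDiffAt ℝ 1 f x) :
    ContDiffAt ℝ 1 (fun t => star (f t)) x :=
  Complex.conjCLE.contDiff.contDiffAt.comp x h

theorem CD.inv {F : E → Mat n} {x : E} (hF : CD F x) (a b : Fin n) :
    ContDiffAt ℝ 1 (fun t => inv (F t) a b) x := by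
  have h1 : CD (fun t => rp (F t)) x := by
    intro i j
    simp only [rp, Matrix.smul_apply, Matrix.add_apply, conjTranspose_apply, smul_eq_mul]
    exact contDiffAt_const.mul ((hF i j).add (cd_star (hF j i)))
  have h2 : CD (fun t => ip (F t)) x := by
    intro i j
    simp only [ip, Matrix.smul_apply, Matrix.sub_apply, conjTranspose_apply, smul_eq_mul]
    exact contDiffAt_const.mul ((hF i j).sub (cd_star (hF j i)))
  have h3 := (((h1.aeval (ell a)).mul h2).mul (h1.aeval (ell b))).mul h2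
  unfold Pool.Agent.H.MP_0ac5c2_an.inv trace
  exact ContDiffAt.sum fun l _ => h3 l l

end smooth

abbrev Par (n : ℕ) := (Fin n → ℝ) × (Fin 4 → Fin n → ℂ)

noncomputable def Mp {n : ℕ} (t : Par n) : Mat n := of fun i j =>
  if i = j then t.2 3 i else
    (t.2 0 i * star (t.2 2 j) + t.2 2 i * star (t.2 1 j)) * ((t.1 i : ℂ) - t.1 j)⁻¹

theorem cd_Mp {n : ℕ} (x : Par n) (hx : Function.Injective x.1) : CD Mp x := by
  intro i j
  have h1 : ∀ (a : Fin 4) (i : Fin n), ContDiffAt ℝ 1 (fun t : Par n => t.2 a i) x := by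
    intro a i
    fun_prop
  have h2 : ∀ i : Fin n, ContDiffAt ℝ 1 (fun t : Par n => (t.1 i : ℂ)) x := by
    intro i
    exact Complex.ofRealCLM.contDiff.contDiffAt.comp x (by fun_prop)
  simp only [Mp, of_apply]
  split_ifs with h
  · exact h1 3 i
  · refine (((h1 0 i).mul (cd_star (h1 2 j))).add ((h1 2 i).mul (cd_star (h1 1 j)))).mul
      (((h2 i).sub (h2 j)).inv ?_)
    rw [sub_ne_zero]
    exact fun h' => h (hx (by exact_mod_cast h'))

noncomputable def Phi (t : Par 18) : Sym2 (Fin 18) → ℝ := fun s => (inv (Mp t) s.out.1 s.out.2).re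

theorem dense_Phi : Dense (Phi '' {t | Function.Injective t.1})ᶜ := by
  apply dense_compl_of_dimH_lt_finrank
  refine lt_of_le_of_lt (dimH_image_le_of_locally_lipschitzOn fun x hx => ?_) ?_
  · have : ContDiffAt ℝ 1 Phi x := by
      refine contDiffAt_pi.2 fun s => ?_
      exact Complex.reCLM.contDiff.contDiffAt.comp x ((cd_Mp x hx).inv _ _)
    obtain ⟨K, t, ht, h⟩ := this.exists_lipschitzOnWith
    exact ⟨K, t, mem_nhdsWithin_of_mem_nhds ht, h⟩
  · refine lt_of_le_of_lt (dimH_mono (subset_univ _)) ?_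
    rw [Real.dimH_univ_eq_finrank]
    have h1 : Module.finrank ℝ (Par 18) = 162 := by
      simp [Module.finrank_prod, Module.finrank_pi_fintype]
    have h2 : Module.finrank ℝ (Sym2 (Fin 18) → ℝ) = 171 := by
      simp [Sym2.card]
      rfl
    rw [h1, h2]
    norm_num

theorem near {B : Fin 18 → Fin 18 → ℝ} {ε : ℝ} (hε : 0 < ε) (hε' : ε ≤ 1 / 100000)
    (hB : ∀ i j, ε ≤ B i j ∧ B i j ≤ 2 * ε) {x : Fin 18 → ℂ} {α : ℂ} (hx : x ≠ 0)
    (h : MB B *ᵥ x = α • x) : ∃ a, 0 < ‖x a‖ ∧ (∀ c, ‖x c‖ ≤ ‖x a‖) ∧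
      ∀ c, c ≠ a → ‖x c‖ ≤ 72 * ε * ‖x a‖ := by
  obtain ⟨a, -, ha⟩ := Finset.exists_max_image Finset.univ (fun c => ‖x c‖) Finset.univ_nonempty
  have ha' : ∀ c, ‖x c‖ ≤ ‖x a‖ := fun c => ha c (Finset.mem_univ c)
  have hpos : 0 < ‖x a‖ := by
    obtain ⟨c, hc⟩ := Function.ne_iff.1 hx
    exact lt_of_lt_of_le (norm_pos_iff.2 hc) (ha' c)
  have key : ∀ c : Fin 18, ‖((c : ℕ) : ℂ) - α‖ * ‖x c‖ ≤ 36 * ε * ‖x a‖ := by
    intro c
    have h1 := congrFun h c
    simp only [MB, add_mulVec, smul_mulVec, Pi.add_apply, mulVec_diagonal, Pi.smul_apply,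
      smul_eq_mul] at h1
    have h2 : (((c : ℕ) : ℂ) - α) * x c = -Complex.I * ∑ d, (B c d : ℂ) * x d := by
      simp only [mulVec, dotProduct, of_apply] at h1
      linear_combination h1
    rw [← norm_mul, h2, norm_mul, norm_neg, Complex.norm_I, one_mul]
    refine (norm_sum_le _ _).trans ?_
    refine (Finset.sum_le_card_nsmul _ _ (2 * ε * ‖x a‖) fun d _ => ?_).trans ?_
    · rw [norm_mul, Complex.norm_real, Real.norm_eq_abs, abs_of_pos (by linarith [(hB c d).1])]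
      exact mul_le_mul (hB c d).2 (ha' d) (norm_nonneg _) (by linarith)
    · simp
      linarith
  refine ⟨a, hpos, ha', fun c hc => ?_⟩
  have h1 : ‖((a : ℕ) : ℂ) - α‖ ≤ 36 * ε := le_of_mul_le_mul_right (key a) hpos
  have h2 : (1 : ℝ) ≤ ‖((c : ℕ) : ℂ) - ((a : ℕ) : ℂ)‖ := by
    have : (((c : ℕ) : ℂ) - ((a : ℕ) : ℂ)) = ((((c : ℕ) : ℤ) - ((a : ℕ) : ℤ) : ℤ) : ℂ) := by
      push_cast; rfl
    rw [this, Complex.norm_intCast]
    have h3 : ((c : ℕ) : ℤ) - ((a : ℕ) : ℤ) ≠ 0 := by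
      intro h4
      exact hc (Fin.ext (by omega))
    exact_mod_cast Int.one_le_abs h3
  have h3 : ‖((c : ℕ) : ℂ) - ((a : ℕ) : ℂ)‖ ≤ ‖((c : ℕ) : ℂ) - α‖ + ‖((a : ℕ) : ℂ) - α‖ := by
    have := norm_sub_le (((c : ℕ) : ℂ) - α) (((a : ℕ) : ℂ) - α)
    rwa [sub_sub_sub_cancel_right] at this
  have h4 := key c
  have h5 := norm_nonneg (x c)
  nlinarith

theorem no_orth {B : Fin 18 → Fin 18 → ℝ} {ε : ℝ} (hε : 0 < ε) (hε' : ε ≤ 1 / 100000)
    (hs : ∀ i j, B i j = B j i) (hB : ∀ i j, ε ≤ B i j ∧ B i j ≤ 2 * ε) :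
    ¬ ∃ x y : Fin 18 → ℂ, ∃ a b : ℂ, x ≠ 0 ∧ y ≠ 0 ∧
      MB B *ᵥ x = a • x ∧ MB B *ᵥ y = b • y ∧ star x ⬝ᵥ y = 0 := by
  rintro ⟨x, y, α, β, hx, hy, h1, h2, h3⟩
  obtain ⟨a, a0, a1, a2⟩ := near hε hε' hB hx h1
  obtain ⟨b, b0, b1, b2⟩ := near hε hε' hB hy h2
  have e1 : star x ⬝ᵥ (MB B *ᵥ y) = 0 := by rw [h2, dotProduct_smul, h3, smul_zero]
  have e2 : star x ⬝ᵥ ((MB B)ᴴ *ᵥ y) = 0 := by
    rw [dotProduct_mulVec, ← star_mulVec, h1, star_smul, smul_dotProduct, h3, smul_zero]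
  have e3 : MB B - (MB B)ᴴ = (2 * Complex.I) • of fun i j => (B i j : ℂ) := by
    ext i j
    by_cases h : i = j
    · subst h
      simp [MB]
      ring
    · simp [MB, h, Ne.symm h, hs j i]
      ring
  have e4 : ∑ z : Fin 18 × Fin 18, star (x z.1) * ((B z.1 z.2 : ℂ) * y z.2) = 0 := by
    have : star x ⬝ᵥ ((MB B - (MB B)ᴴ) *ᵥ y) = 0 := by
      rw [sub_mulVec, dotProduct_sub, e1, e2, sub_zero]
    rw [e3, smul_mulVec, dotProduct_smul, smul_eq_zero] at this
    rcases this with h | h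
    · simp at h
    · rw [Fintype.sum_prod_type]
      simpa only [dotProduct, mulVec, of_apply, Finset.mul_sum, Pi.star_apply] using h
  rw [← Finset.add_sum_erase _ _ (Finset.mem_univ (a, b)), add_eq_zero_iff_eq_neg] at e4
  have e5 := congrArg norm e4
  have nn : ∀ c d, ‖star (x c) * ((B c d : ℂ) * y d)‖ = ‖x c‖ * (B c d * ‖y d‖) := by
    intro c d
    rw [norm_mul, norm_mul, norm_star, Complex.norm_real, Real.norm_eq_abs,
      abs_of_pos (by linarith [(hB c d).1])]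
  rw [norm_neg, nn] at e5
  have e6 : ‖∑ z ∈ Finset.univ.erase (a, b), star (x z.1) * ((B z.1 z.2 : ℂ) * y z.2)‖ ≤
      324 * (144 * ε ^ 2 * (‖x a‖ * ‖y b‖)) := by
    refine (norm_sum_le _ _).trans ?_
    refine (Finset.sum_le_card_nsmul _ _ (144 * ε ^ 2 * (‖x a‖ * ‖y b‖)) fun z hz => ?_).trans ?_
    · rw [nn]
      have hz' : z.1 ≠ a ∨ z.2 ≠ b := by
        by_contra h
        push Not at h
        exact (Finset.mem_erase.1 hz).1 (Prod.ext h.1 h.2)
      have g1 : ‖x z.1‖ * ‖y z.2‖ ≤ 72 * ε * (‖x a‖ * ‖y b‖) := by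
        rcases hz' with h | h
        · have := mul_le_mul (a2 _ h) (b1 z.2) (norm_nonneg _) (by positivity)
          linarith
        · have := mul_le_mul (a1 z.1) (b2 _ h) (norm_nonneg _) (by positivity)
          linarith
      have := mul_le_mul (hB z.1 z.2).2 g1 (by positivity) (by positivity)
      nlinarith
    · rw [nsmul_eq_mul]
      refine mul_le_mul_of_nonneg_right ?_ (by positivity)
      have : (Finset.univ.erase (a, b)).card ≤ 324 := by
        refine (Finset.card_erase_le).trans ?_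
        simp
      exact_mod_cast this
  have e7 : ε * (‖x a‖ * ‖y b‖) ≤ ‖x a‖ * (B a b * ‖y b‖) := by
    have := mul_le_mul_of_nonneg_right (hB a b).1 (mul_pos a0 b0).le
    linarith
  have e8 : 0 < ε * (‖x a‖ * ‖y b‖) := by positivity
  nlinarith

theorem main : ∃ M : Mat 18, Mᵀ = M ∧
    (¬ ∃ x y : Fin 18 → ℂ, ∃ a b : ℂ, x ≠ 0 ∧ y ≠ 0 ∧
      M *ᵥ x = a • x ∧ M *ᵥ y = b • y ∧ star x ⬝ᵥ y = 0) ∧
    ¬ ∃ T : Mat 18, ∃ k u v : Fin 18 → ℂ,
        1 - T * Tᴴ = Matrix.vecMulVec k (star k) ∧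
        (∀ μ : ℂ, ∀ x : Fin 18 → ℂ, x ≠ 0 → T *ᵥ x = μ • x → ‖μ‖ < 1) ∧
        M - T * M * Tᴴ = Matrix.vecMulVec u (star k) + Matrix.vecMulVec k (star v) := by
  set ε : ℝ := 1 / 100000 with hε
  have h0 : 0 < ε := by positivity
  have hO : IsOpen (Set.pi univ fun _ : Sym2 (Fin 18) => Ioo (ε ^ 2) ((2 * ε) ^ 2)) :=
    isOpen_set_pi finite_univ fun _ _ => isOpen_Ioo
  obtain ⟨β, hβ, hβ'⟩ := dense_Phi.inter_open_nonempty _ hO
    ⟨fun _ => 2 * ε ^ 2, fun _ _ => ⟨by nlinarith, by nlinarith⟩⟩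
  set B : Fin 18 → Fin 18 → ℝ := fun i j => Real.sqrt (β s(i, j)) with hB
  have hs : ∀ i j, B i j = B j i := fun i j => by simp only [hB, Sym2.eq_swap]
  have hb : ∀ i j, ε ≤ B i j ∧ B i j ≤ 2 * ε := fun i j =>
    ⟨Real.le_sqrt_of_sq_le (hβ _ trivial).1.le,
      Real.sqrt_le_iff.2 ⟨by positivity, (hβ _ trivial).2.le⟩⟩
  refine ⟨MB B, ?_, no_orth h0 le_rfl hs hb, ?_⟩
  · ext i j
    by_cases h : i = j
    · subst h
      rfl
    · simp [MB, h, Ne.symm h, hs j i]
  · rintro ⟨T, k, u, v, h1, h2, h3⟩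
    obtain ⟨U, h, p, q, κ, hi, hM⟩ := normal_form _ T k u v h1 h2 h3
    apply hβ'
    refine ⟨(h, ![p, q, κ, fun i => (Unitary.conjStarAlgAut ℂ _ U (MB B)) i i]), hi, ?_⟩
    have e : Mp (h, ![p, q, κ, fun i => (Unitary.conjStarAlgAut ℂ _ U (MB B)) i i]) =
        Unitary.conjStarAlgAut ℂ _ U (MB B) := by
      generalize Unitary.conjStarAlgAut ℂ _ U (MB B) = M' at hM ⊢
      ext i j
      simp only [Mp, of_apply]
      split_ifs with hij
      · subst hij
        rfl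
      · have h4 : (h i : ℂ) - h j ≠ 0 := by
          rw [sub_ne_zero]
          exact fun h' => hij (hi (by exact_mod_cast h'))
        have := hM i j
        simp only [Matrix.cons_val]
        rw [← this]
        field_simp
    funext s
    unfold Phi
    rw [e, inv_conj, inv_MB B hs, ← Complex.ofReal_pow, Complex.ofReal_re, hB]
    have : s(s.out.1, s.out.2) = s := s.out_eq
    simp only [this]
    exact Real.sq_sqrt (by nlinarith [(hβ s trivial).1])

end Pool.Agent.H.MP_0ac5c2_an
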